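import Mathlib

namespace Pool.Agent.Results.MP_122452_an.PowerType

open Metric

variable {X : Type*} [NormedAddCommGroup X] [NormedSpace ℝ X]

def Lip2 (U : Set X) (f : X → X) : Prop :=
  ∃ K : ℝ, ∀ t > 0, ∀ x h, ‖h‖ ≤ t → segment ℝ (x - h) (x + h) ⊆ U →
    ‖f (x + h) - (2 : ℝ) • f x + f (x - h)‖ ≤ K * t ^ 2

def LipOpen (U : Set X) (f : X → X) : Prop :=
  ∃ c > 0, ∀ x ∈ U, ∀ ε > 0, ball x ε ⊆ U → ball (f x) (c * ε) ⊆ f '' ball x ε

def LocConvex (U : Set X) (f : X → X) : Prop :=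
  ∃ c > 0, ∀ ε > 0, ε ≤ c → ∀ x ∈ U, ball x ε ⊆ U → Convex ℝ (f '' ball x ε)

theorem result [CompleteSpace X]
    (H : ∀ U : Set X, IsOpen U → ∀ f, LipOpen U f → Lip2 U f → LocConvex U f) :
    ∃ L > 0, ∀ t ∈ Set.Icc (0 : ℝ) 2, ∀ x y : X, ‖x‖ = 1 → ‖y‖ = 1 → t ≤ ‖x - y‖ →
      L * t ^ 2 ≤ 1 - ‖(1 / 2 : ℝ) • (x + y)‖ := by
  by_contra hc
  push Not at hc
  have A : ∀ n : ℕ, ∃ (m d : X) (ψ : X →L[ℝ] ℝ), ‖m + d‖ = 1 ∧ ‖m - d‖ = 1 ∧ ‖m‖ ≤ 1 ∧
      ‖ψ‖ ≤ 2 ∧ ψ m = 0 ∧ ∀ ε, 1 / ((n : ℝ) + 1) ≤ ε → 1 < (1 + ε * ψ d ^ 2) * ‖m‖ := by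
    intro n
    have hp : 0 < 1 / ((n : ℝ) + 1) := by positivity
    have hq : 1 / ((n : ℝ) + 1) ≤ 1 := div_le_one_of_le₀ (by simp) (by positivity)
    obtain ⟨t, ht, x, y, hx, hy, h1, h2⟩ := hc (1 / (n + 1) / 128) (by positivity)
    obtain ⟨m, hm⟩ : ∃ m, m = (1 / 2 : ℝ) • (x + y) := ⟨_, rfl⟩
    obtain ⟨d, hd⟩ : ∃ d, d = (1 / 2 : ℝ) • (x - y) := ⟨_, rfl⟩
    obtain ⟨rfl, rfl⟩ : x = m + d ∧ y = m - d := by
      rw [hm, hd]; constructor <;> module
    rw [← hm] at h2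
    rw [add_sub_sub_cancel, ← two_smul ℝ, norm_smul, Real.norm_two] at h1
    have a1 := norm_add_le (m + d) (m - d)
    have a2 := norm_sub_le (m + d) (m - d)
    rw [add_add_sub_cancel, ← two_smul ℝ, norm_smul, Real.norm_two, hx, hy] at a1
    rw [add_sub_sub_cancel, ← two_smul ℝ, norm_smul, Real.norm_two, hx, hy] at a2
    have a3 : 1 - ‖m‖ < 1 / (n + 1) / 32 * ‖d‖ ^ 2 := by
      nlinarith [mul_le_mul_of_nonneg_left (pow_le_pow_left₀ ht.1 h1 2) hp.le]
    have d0 := norm_nonneg d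
    have a4 : 1 - ‖m‖ ≤ ‖d‖ / 2 := by
      nlinarith [mul_le_mul_of_nonneg_right hq (sq_nonneg ‖d‖)]
    obtain ⟨g, g1, g2⟩ := exists_dual_vector'' ℝ d
    obtain ⟨φ, φ1, φ2⟩ := exists_dual_vector'' ℝ m
    replace g2 : g d = ‖d‖ := g2
    replace φ2 : φ m = ‖m‖ := φ2
    have b : ∀ (k : X →L[ℝ] ℝ) z, ‖k‖ ≤ 1 → |k z| ≤ ‖z‖ := fun k z h =>
      (k.le_opNorm z).trans (mul_le_of_le_one_left (norm_nonneg _) h)
    have b1 := (abs_le.1 (b φ (m + d) φ1)).2
    have b2 := (abs_le.1 (b φ (m - d) φ1)).2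
    rw [map_add] at b1
    rw [map_sub] at b2
    have b3 : |g m * φ d| ≤ ‖m‖ * (‖d‖ / 2) := by
      rw [abs_mul]
      exact mul_le_mul (b g m g1) (abs_le.2 ⟨by linarith, by linarith⟩) (abs_nonneg _)
        (norm_nonneg _)
    have b4 : ‖d‖ / 4 ≤ (‖m‖ • g - g m • φ) d := by
      simp only [sub_apply, smul_apply, smul_eq_mul, g2]
      nlinarith [(abs_le.1 b3).2]
    refine ⟨m, d, ‖m‖ • g - g m • φ, hx, hy, by linarith, (norm_sub_le _ _).trans ?_,
      by simp [φ2, mul_comm], fun ε hε => ?_⟩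
    · rw [norm_smul, norm_smul, norm_norm]
      nlinarith [b g m g1, Real.norm_eq_abs (g m), norm_nonneg g, norm_nonneg φ, norm_nonneg m]
    · have c1 := mul_le_mul hε (pow_le_pow_left₀ (by positivity) b4 2) (by positivity)
        (hp.le.trans hε)
      nlinarith [mul_nonneg hp.le (sq_nonneg ‖d‖)]
  choose m d ψ h1 h2 h3 h4 h5 h6 using A
  let p (n : ℕ) : X := (n : ℝ) • (m 0 + d 0)
  have dj : ∀ n k z, z ∈ ball (p n) (1 / 16) → z ∈ ball (p k) (1 / 16) → n = k := by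
    intro n k z a b
    have := dist_triangle_left (p n) (p k) z
    rw [dist_eq_norm, ← sub_smul, norm_smul, h1, mul_one, Real.norm_eq_abs] at this
    have c : |(n : ℝ) - k| < 1 := by linarith [mem_ball.1 a, mem_ball.1 b]
    have : |(n : ℤ) - k| < 1 := by exact_mod_cast c
    rw [Int.abs_lt_one_iff] at this
    omega
  let N (z : X) : ℕ := Classical.epsilon fun n => z ∈ ball (p n) (1 / 16)
  let f (z : X) : X := z + ψ (N z) (z - p (N z)) ^ 2 • m (N z)
  have hf : ∀ n z, z ∈ ball (p n) (1 / 16) → f z = z + ψ n (z - p n) ^ 2 • m n := fun n z h => by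
    rw [dj n _ z h (Classical.epsilon_spec (p := fun n => z ∈ ball (p n) (1 / 16)) ⟨n, h⟩)]
  have cn : ∀ n (S : Set X), Convex ℝ S → S ⊆ ⋃ n, ball (p n) (1 / 16) → ∀ z ∈ S,
      z ∈ ball (p n) (1 / 16) → S ⊆ ball (p n) (1 / 16) := fun n S a b z c e =>
    a.isPreconnected.subset_left_of_subset_union (v := ⋃ k ≠ n, ball (p k) (1 / 16)) isOpen_ball
      (isOpen_biUnion fun _ _ => isOpen_ball) (Set.disjoint_left.2 fun w w1 w2 => by
        obtain ⟨k, k1, k2⟩ := Set.mem_iUnion₂.1 w2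
        exact k1 (dj k n w k2 w1)) (fun w hw => by
        obtain ⟨k, hk⟩ := Set.mem_iUnion.1 (b hw)
        rcases eq_or_ne k n with rfl | g
        · exact Or.inl hk
        · exact Or.inr (Set.mem_iUnion₂.2 ⟨k, g, hk⟩)) ⟨z, c, e⟩
  have bψ : ∀ n z, |ψ n z| ≤ 2 * ‖z‖ := fun n z =>
    ((ψ n).le_opNorm z).trans (mul_le_mul_of_nonneg_right (h4 n) (norm_nonneg _))
  obtain ⟨c, c0, hc⟩ := H (⋃ n, ball (p n) (1 / 16)) (isOpen_iUnion fun _ => isOpen_ball) f
    ⟨1 / 2, by norm_num, fun x hx ε hε hU w hw => by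
      obtain ⟨n, hn⟩ := Set.mem_iUnion.1 hx
      have a := cn n _ (convex_ball x ε) hU x (mem_ball_self hε) hn
      have a1 : ε ≤ 1 / 8 := not_lt.1 fun g => by
        have e : ‖(1 / 8 : ℝ) • (m 0 + d 0)‖ = 1 / 8 := by rw [norm_smul, h1]; norm_num
        have := dist_triangle_right (x + (1 / 8 : ℝ) • (m 0 + d 0)) x (p n)
        rw [dist_self_add_left, e] at this
        linarith [mem_ball.1 hn, mem_ball.1 (a (show x + (1 / 8 : ℝ) • (m 0 + d 0) ∈ _ by
          rw [mem_ball, dist_self_add_left, e]; exact g))]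
      rw [hf n x hn, mem_ball_iff_norm] at hw
      have a2 := bψ n (w - (x + ψ n (x - p n) ^ 2 • m n))
      have a3 := bψ n (x - p n)
      rw [show ψ n (w - (x + ψ n (x - p n) ^ 2 • m n)) = ψ n (w - p n) - ψ n (x - p n) by
        simp [h5]] at a2
      have a4 : w - ψ n (w - p n) ^ 2 • m n ∈ ball x ε := by
        rw [mem_ball_iff_norm, show w - ψ n (w - p n) ^ 2 • m n - x =
          w - (x + ψ n (x - p n) ^ 2 • m n) - ((ψ n (w - p n) - ψ n (x - p n) + 2 * ψ n (x - p n)) *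
            (ψ n (w - p n) - ψ n (x - p n))) • m n by module]
        refine (norm_sub_le _ _).trans_lt ?_
        rw [norm_smul, Real.norm_eq_abs, abs_mul]
        have b1 := abs_add_le (ψ n (w - p n) - ψ n (x - p n)) (2 * ψ n (x - p n))
        rw [abs_mul, abs_two] at b1
        have b2 := mem_ball_iff_norm.1 hn
        have b3 := mul_le_mul (mul_le_mul (b1.trans (show _ ≤ (1 / 2 : ℝ) by linarith)) a2
          (abs_nonneg _) (by norm_num)) (h3 n) (norm_nonneg _) (by positivity)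
        linarith
      refine ⟨_, a4, (hf n _ (a a4)).trans ?_⟩
      simp [h5]⟩
    ⟨8, fun t ht x h hh hU => by
      have x0 : x ∈ segment ℝ (x - h) (x + h) := ⟨1 / 2, 1 / 2, by norm_num, by norm_num,
        by norm_num, by module⟩
      obtain ⟨n, hn⟩ := Set.mem_iUnion.1 (hU x0)
      have a := cn n _ (convex_segment _ _) hU x x0 hn
      rw [hf n x hn, hf n _ (a (left_mem_segment _ _ _)), hf n _ (a (right_mem_segment _ _ _)),
        add_sub_right_comm x h (p n), sub_right_comm x h, map_add, map_sub (ψ n) _ h]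
      refine (congrArg norm (show _ = (2 * ψ n h ^ 2) • m n by module)).trans_le ?_
      rw [norm_smul, Real.norm_of_nonneg (by positivity), ← sq_abs]
      have := pow_le_pow_left₀ (abs_nonneg _) ((bψ n h).trans
        (mul_le_mul_of_nonneg_left hh zero_le_two)) 2
      nlinarith [h3 n, sq_nonneg |ψ n h|]⟩
  have r0 : 0 < min c (1 / 16) := lt_min c0 (by norm_num)
  obtain ⟨n, hn⟩ := exists_nat_one_div_lt (half_pos r0)
  set ε := min c (1 / 16) / 2 with hε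
  have e0 : 0 < ε := half_pos r0
  have a1 := mul_lt_mul_of_pos_left (h6 n ε hn.le) e0
  set R := ε * ((1 + ε * ψ n (d n) ^ 2) * ‖m n‖) with hR
  have a2 : ε < min R (min c (1 / 16)) := lt_min (by linarith) (by linarith)
  have a3 : ball (p n) (min R (min c (1 / 16))) ⊆ ball (p n) (1 / 16) :=
    ball_subset_ball ((min_le_right _ _).trans (min_le_right _ _))
  have a4 : ∀ z : X, ‖z‖ = 1 → p n + ε • z ∈ ball (p n) (min R (min c (1 / 16))) := fun z hz => by
    rwa [mem_ball, dist_self_add_left, norm_smul, hz, mul_one, Real.norm_of_nonneg e0.le]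
  obtain ⟨z, z1, z2⟩ := hc _ (e0.trans a2) ((min_le_right _ _).trans (min_le_left _ _)) (p n)
    (Set.mem_iUnion.2 ⟨n, mem_ball_self (by norm_num)⟩) 
    (a3.trans (Set.subset_iUnion (fun n => ball (p n) (1 / 16)) n))
    ⟨_, a4 _ (h1 n), rfl⟩ ⟨_, a4 _ (h2 n), rfl⟩ one_half_pos.le one_half_pos.le (add_halves 1)
  rw [hf n _ (a3 z1), hf n _ (a3 (a4 _ (h1 n))), hf n _ (a3 (a4 _ (h2 n)))] at z2
  simp only [add_sub_cancel_left, map_smul, map_add, map_sub (ψ n) (m n), h5, smul_eq_mul] at z2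
  have z3 : z - p n = (ε * (1 + ε * ψ n (d n) ^ 2) - ψ n (z - p n) ^ 2) • m n := by
    linear_combination (norm := module) z2
  have z4 : ψ n (z - p n) = 0 := by rw [z3, map_smul, h5, smul_zero]
  rw [mem_ball_iff_norm, z3, z4, zero_pow two_ne_zero, sub_zero, norm_smul,
    Real.norm_of_nonneg (by positivity)] at z1
  linarith [min_le_left R (min c (1 / 16))]

end Pool.Agent.Results.MP_122452_an.PowerType
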